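import Pool.Agent.H37.Nc3

set_option autoImplicit false

open Pool.Agent.H37.Nc Pool.Agent.H37.Vl

theorem Pool.Agent.Results.MP_4b35b9_lc.No.result :
    ∃ A : ℕ → Bool, Delta11 A ∧ NCR A ∧
      ∀ B : ℕ → Bool, TuringEquivalent (chi A) (chi B) → ¬ SelfModulus B :=
  main
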